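import Pool.Agent.helper15.XE.SpecC
import Pool.Agent.helper70.GD.BV

/-! # Project XE (MP_5628fe_nt), row GVT -/

set_option autoImplicit false

namespace Pool.Agent.XE

open Finset ArithmeticFunction
open Pool.Agent.EC (tri TL wt mt Adm edg mnf tI tII tyI cvl KK yN UN TUP TLe GdT)
open Pool.Agent.CH (rgh Mo ClP ClB)
open GD (kp ks)

private lemma GVT_coprime (r : ℕ → ℕ) (hr : ClB r) (m : ℕ) (hm : 0 < m) (h30 : Nat.Coprime m 30) :
    Nat.Coprime (r m) (30 * m) := by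
  obtain ⟨h1, h2⟩ := hr m hm h30
  refine Nat.Coprime.mul_right ?_ ?_
  · have h3 : Nat.gcd (r m) 30 = Nat.gcd 7 30 := h1.gcd_eq
    rw [Nat.Coprime, h3]
    norm_num
  · have h3 : Nat.gcd (r m) m = Nat.gcd 6 m := h2.gcd_eq
    rw [Nat.Coprime, h3]
    have h4 : Nat.Coprime m 6 := Nat.Coprime.coprime_dvd_right (by norm_num) h30
    exact h4.symm

/-- the small conductors, summed over the windows -/
private lemma GVT_small (N : ℕ) (V : Finset ℝ) (T κ : ℕ → ℝ) (w c : ℝ)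
    (h : ∀ v ∈ V, |∑ j ∈ Z3 N, T j * wv N v j * κ j - w * ∑ j ∈ Z3 N, T j * wv N v j| ≤ c) :
    |∑ j ∈ Z3 N, T j * fV N V j * κ j - w * ∑ j ∈ Z3 N, T j * fV N V j| ≤ #V * c := by
  have e1 : ∑ j ∈ Z3 N, T j * fV N V j * κ j = ∑ v ∈ V, ∑ j ∈ Z3 N, T j * wv N v j * κ j := by
    rw [sum_comm]
    refine sum_congr rfl fun j _ => ?_
    unfold fV
    rw [mul_sum, sum_mul]
  have e2 : ∑ j ∈ Z3 N, T j * fV N V j = ∑ v ∈ V, ∑ j ∈ Z3 N, T j * wv N v j := by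
    rw [sum_comm]
    refine sum_congr rfl fun j _ => ?_
    unfold fV
    rw [mul_sum]
  rw [e1, e2, mul_sum, ← sum_sub_distrib]
  refine (abs_sum_le_sum_abs _ _).trans ((sum_le_sum h).trans ?_)
  rw [sum_const, nsmul_eq_mul]

theorem GVT (h1 : TLF_stmt) (h2 : BIA_stmt) (h3 : Pool.Agent.EC.KKD_stmt) (h4 : SCK_stmt) (h5 : WVB_stmt) :
    GVT_stmt := by
  intro r a b hab δ hδ hG A
  obtain ⟨N₁, H1⟩ := h1 r a b hab δ hδ hG
  obtain ⟨B, C, N₂, H2⟩ := h2 (A + 2) 4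
  obtain ⟨N₃, H3⟩ := h4 r a b (Or.inr hab) (A + 3) (B + 1)
  obtain ⟨N₄, -, H4⟩ := h5
  -- N^(δ/2) ≥ L^C
  have hlim : ∀ᶠ x : ℝ in Filter.atTop, Real.log x ^ C ≤ x ^ (δ / 2) := by
    have h := (isLittleO_log_rpow_rpow_atTop (C : ℝ) (show (0 : ℝ) < δ / 2 by linarith)).bound
      (show (0 : ℝ) < 1 by norm_num)
    filter_upwards [h, Filter.eventually_ge_atTop (1 : ℝ)] with x hx hx1
    rw [Real.rpow_natCast, Real.norm_eq_abs, Real.norm_eq_abs, one_mul] at hx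
    have h1 : 0 ≤ Real.log x := Real.log_nonneg hx1
    rw [abs_of_nonneg (pow_nonneg h1 C), abs_of_nonneg (Real.rpow_nonneg (by linarith) _)] at hx
    exact hx
  obtain ⟨x₀, hx₀⟩ := Filter.eventually_atTop.1 hlim
  refine ⟨max (max (max N₁ N₂) (max N₃ ⌈x₀⌉₊)) (max N₄ ⌈Real.exp 12⌉₊), ?_⟩
  intro N hN V hV r' hr'
  have hN1 : N₁ ≤ N := (le_max_left _ _).trans ((le_max_left _ _).trans ((le_max_left _ _).trans hN))
  have hN2 : N₂ ≤ N := (le_max_right _ _).trans ((le_max_left _ _).trans ((le_max_left _ _).trans hN))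
  have hN3 : N₃ ≤ N := (le_max_left _ _).trans ((le_max_right _ _).trans ((le_max_left _ _).trans hN))
  have hNx : x₀ ≤ N := (Nat.le_ceil _).trans (by
    exact_mod_cast (le_max_right _ _).trans ((le_max_right _ _).trans ((le_max_left _ _).trans hN)))
  have hN4 : N₄ ≤ N := (le_max_left _ _).trans ((le_max_right _ _).trans hN)
  have hNe : Real.exp 12 ≤ N := (Nat.le_ceil _).trans (by
    exact_mod_cast (le_max_right _ _).trans ((le_max_right _ _).trans hN))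
  have hNpos : (0 : ℝ) < N := (Real.exp_pos _).trans_le hNe
  have hN0 : 0 < N := by exact_mod_cast hNpos
  have hL : 12 ≤ Real.log N := by
    rw [← Real.log_exp 12]
    exact Real.log_le_log (Real.exp_pos _) hNe
  have hLC := hx₀ N hNx
  have hfV : ∀ j : ℕ, fV N V j ≠ 0 → N ^ 3 < j := fun j hj =>
    (((H4 N hN4).2 V hV.1 hV.2.1).2 j).2.2 hj |>.1
  set L := Real.log N with hLdef
  have hL0 : 0 < L := by linarith
  obtain ⟨α, β, hα, hβ, hαβ, hcvl⟩ := H1 N hN1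
  have hcvl' : ∀ j ∈ Z3 N, cvl α β j * fV N V j = TL N a b j * fV N V j := by
    intro j hj
    by_cases h0 : fV N V j = 0
    · rw [h0, mul_zero, mul_zero]
    · rw [hcvl j hj (hfV j h0)]
  set Q := ⌊QV N⌋₊ with hQ
  have hQN : Q ≤ N := by
    have h5 : (N : ℝ) ^ (104 / 125 : ℝ) ≤ (N : ℝ) ^ (1 : ℝ) := by
      refine Real.rpow_le_rpow_of_exponent_le ?_ (by norm_num)
      exact_mod_cast hN0
    rw [Real.rpow_one] at h5
    exact Nat.floor_le_of_le h5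
  set R₀ := ⌈L ^ B⌉₊ with hR₀
  have hR₀1 : 1 ≤ R₀ := Nat.ceil_pos.mpr (by positivity)
  have hR₀L : L ^ B ≤ (R₀ : ℝ) := Nat.le_ceil _
  have hR₀U : (R₀ : ℝ) ≤ L ^ (B + 1) := by
    have h5 := (Nat.ceil_lt_add_one (by positivity : 0 ≤ L ^ B)).le
    have h6 : (1 : ℝ) ≤ L ^ B := one_le_pow₀ (by linarith)
    have h7 : L ^ (B + 1) = L ^ B * L := pow_succ _ _
    rw [h7]
    nlinarith
  set k := Nat.log 2 (30 * N) + 1 with hk
  have hkX : 30 * N ≤ 2 ^ k * R₀ := by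
    have h5 : 30 * N < 2 ^ k := Nat.lt_pow_succ_log_self (by norm_num) (30 * N)
    have h6 : 2 ^ k ≤ 2 ^ k * R₀ := Nat.le_mul_of_pos_right _ hR₀1
    omega
  have hkL : (k : ℝ) ≤ 3 * L := by
    have h5 := GD.BV_log2 (30 * N) (by omega)
    have h6 : Real.log ((30 * N : ℕ) : ℝ) = Real.log 30 + L := by
      push_cast
      rw [Real.log_mul (by norm_num) hNpos.ne']
    have h7 : Real.log 30 ≤ 4 := by
      have h8 : Real.log 30 ≤ Real.log 32 := Real.log_le_log (by norm_num) (by norm_num)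
      have h9 : Real.log 32 = 5 * Real.log 2 := by
        rw [show (32 : ℝ) = 2 ^ 5 by norm_num, Real.log_pow]
        norm_num
      have h10 := Real.log_two_lt_d9
      linarith
    rw [hk]
    push_cast
    rw [h6] at h5
    linarith
  have hMo : ∀ m ∈ Mo (QV N), 0 < m ∧ m ≤ Q ∧ Nat.Coprime m 30 := by
    intro m hm
    unfold Mo at hm
    rw [mem_filter, mem_Icc] at hm
    exact ⟨hm.1.1, hm.1.2, hm.2⟩
  -- the hypotheses of BIA
  have hbig : (N : ℝ) * L ^ C ≤ (N : ℝ) ^ (1 + δ / 2) := by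
    rw [Real.rpow_add hNpos, Real.rpow_one]
    exact mul_le_mul_of_nonneg_left hLC hNpos.le
  have hα' : ∀ a, α a ≠ 0 → (N : ℝ) * L ^ C ≤ a := fun a ha => hbig.trans (hα a ha)
  have hβ' : ∀ a, β a ≠ 0 → (N : ℝ) * L ^ C ≤ a := fun a ha => hbig.trans (hβ a ha)
  have hsq : ∀ γ : ℕ → ℝ, (∀ k, |γ k| ≤ L ^ 2) → ∀ Y : ℕ, ∑ a ∈ Ioc 0 Y, γ a ^ 2 ≤ Y * L ^ 4 := by
    intro γ hγ Y
    calc ∑ a ∈ Ioc 0 Y, γ a ^ 2 ≤ ∑ _a ∈ Ioc 0 Y, L ^ 4 := by
          refine sum_le_sum fun a _ => ?_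
          have h5 := hγ a
          have h6 : γ a ^ 2 = |γ a| ^ 2 := (sq_abs _).symm
          rw [h6]
          calc |γ a| ^ 2 ≤ (L ^ 2) ^ 2 := pow_le_pow_left₀ (abs_nonneg _) h5 2
            _ = L ^ 4 := by ring
      _ = Y * L ^ 4 := by rw [sum_const, Nat.card_Ioc, nsmul_eq_mul]; simp
  have hV0 : (0 : ℝ) ≤ #V := Nat.cast_nonneg _
  -- pointwise
  have hpt : ∀ m ∈ Mo (QV N),
      |∑ j ∈ Z3 N with j ≡ r' m [MOD 30 * m], TL N a b j * fV N V j -
        1 / (Nat.totient (30 * m) : ℝ) * ∑ j ∈ Z3 N, TL N a b j * fV N V j| ≤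
      (1 / (Nat.totient (30 * m) : ℝ)) * (#V * ((N : ℝ) ^ 2 / L ^ (A + 3))) +
        ∑ i ∈ range k, |∑ j ∈ Z3 N, cvl α β j * fV N V j * kp (2 ^ i * R₀) (30 * m) (r' m) j| := by
    intro m hm
    obtain ⟨hm0, hmQ, hm30⟩ := hMo m hm
    have hcop := GVT_coprime r' hr' m hm0 hm30
    have h30m : 0 < 30 * m := by omega
    have hle : 30 * m ≤ 30 * N := by
      have := hmQ.trans hQN
      omega
    have hle2 : 30 * m ≤ 64 * N ^ 3 := by
      have h5 : N ≤ N ^ 3 := Nat.le_self_pow (by norm_num) N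
      omega
    have e1 : ∑ j ∈ Z3 N with j ≡ r' m [MOD 30 * m], TL N a b j * fV N V j =
        ∑ j ∈ Z3 N, TL N a b j * fV N V j * ks R₀ (30 * m) (r' m) j +
          ∑ i ∈ range k, ∑ j ∈ Z3 N, cvl α β j * fV N V j * kp (2 ^ i * R₀) (30 * m) (r' m) j := by
      rw [sum_comm, sum_filter, ← sum_add_distrib]
      refine sum_congr rfl fun j hj => ?_
      rw [← mul_sum, ← h3 (30 * m) (r' m) R₀ k j h30m hcop hR₀1 (hle.trans hkX), hcvl' j hj, ← mul_add]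
      unfold KK
      split_ifs
      · ring
      · ring
    rw [e1, add_sub_right_comm]
    refine (abs_add_le _ _).trans (add_le_add ?_ (abs_sum_le_sum_abs _ _))
    have h7 := GVT_small N V (fun j => TL N a b j) (fun j => ks R₀ (30 * m) (r' m) j)
      (1 / (Nat.totient (30 * m) : ℝ)) (1 / (Nat.totient (30 * m) : ℝ) * ((N : ℝ) ^ 2 / L ^ (A + 3)))
      (fun v hv => H3 N hN3 v (hV.1 v hv) (30 * m) (r' m) R₀ h30m hle2 hcop hR₀1 hR₀U)
    refine h7.trans (le_of_eq ?_)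
    ring
  refine (sum_le_sum hpt).trans ?_
  rw [sum_add_distrib, ← sum_mul, sum_comm]
  have hA1 : ∑ i ∈ range k, ∑ m ∈ Mo (QV N),
      |∑ j ∈ Z3 N, cvl α β j * fV N V j * kp (2 ^ i * R₀) (30 * m) (r' m) j| ≤
      3 * L * (#V * (N : ℝ) ^ 2 / L ^ (A + 2)) := by
    have h5 : ∀ i ∈ range k, ∑ m ∈ Mo (QV N),
        |∑ j ∈ Z3 N, cvl α β j * fV N V j * kp (2 ^ i * R₀) (30 * m) (r' m) j| ≤
        #V * (N : ℝ) ^ 2 / L ^ (A + 2) := by
      intro i _
      refine H2 N hN2 V hV r' (2 ^ i * R₀) (hR₀L.trans ?_) α β hα' hβ'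
        (fun Y _ => hsq α (fun k => (hαβ k).1) Y) (fun Y _ => hsq β (fun k => (hαβ k).2) Y)
      have : R₀ ≤ 2 ^ i * R₀ := Nat.le_mul_of_pos_left _ (by positivity)
      exact_mod_cast this
    refine (sum_le_sum h5).trans ?_
    rw [sum_const, card_range, nsmul_eq_mul]
    exact mul_le_mul_of_nonneg_right hkL (by positivity)
  have hA2 : ∑ m ∈ Mo (QV N), 1 / (Nat.totient (30 * m) : ℝ) ≤ 6 * L ^ 2 := by
    have h5 : ∑ m ∈ Mo (QV N), 1 / (Nat.totient (30 * m) : ℝ) ≤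
        ∑ m ∈ Icc 1 Q, 1 / (Nat.totient m : ℝ) := by
      calc ∑ m ∈ Mo (QV N), 1 / (Nat.totient (30 * m) : ℝ)
          ≤ ∑ m ∈ Mo (QV N), 1 / (Nat.totient m : ℝ) := by
            refine sum_le_sum fun m hm => ?_
            obtain ⟨hm0, _, _⟩ := hMo m hm
            have h6 : (0 : ℝ) < Nat.totient m := by exact_mod_cast Nat.totient_pos.mpr hm0
            refine one_div_le_one_div_of_le h6 ?_
            have h7 : Nat.totient m ≤ Nat.totient (30 * m) :=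
              Nat.le_of_dvd (Nat.totient_pos.mpr (by omega))
                (Nat.totient_dvd_of_dvd (Nat.dvd_mul_left m 30))
            exact_mod_cast h7
        _ ≤ ∑ m ∈ Icc 1 Q, 1 / (Nat.totient m : ℝ) := by
            refine sum_le_sum_of_subset_of_nonneg ?_ (fun m _ _ => by positivity)
            intro m hm
            obtain ⟨hm0, hmQ, _⟩ := hMo m hm
            rw [mem_Icc]
            exact ⟨hm0, hmQ⟩
    refine h5.trans ?_
    rcases Nat.eq_zero_or_pos Q with h | h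
    · rw [h]
      simp only [Icc_eq_empty_of_lt zero_lt_one, sum_empty]
      positivity
    · refine (GD.BV_sum_inv Q h).trans ?_
      have h6 : Real.log Q ≤ L := Real.log_le_log (by exact_mod_cast h) (by exact_mod_cast hQN)
      have h7 : 0 ≤ Real.log Q := Real.log_natCast_nonneg Q
      nlinarith
  have hA3 : (∑ m ∈ Mo (QV N), 1 / (Nat.totient (30 * m) : ℝ)) *
      (#V * ((N : ℝ) ^ 2 / L ^ (A + 3))) ≤ 6 * L ^ 2 * (#V * ((N : ℝ) ^ 2 / L ^ (A + 3))) :=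
    mul_le_mul_of_nonneg_right hA2 (by positivity)
  refine (add_le_add hA3 hA1).trans ?_
  have e2 : 6 * L ^ 2 * (#V * ((N : ℝ) ^ 2 / L ^ (A + 3))) = 6 / L * (#V * (N : ℝ) ^ 2 / L ^ A) := by
    rw [pow_add]
    field_simp
  have e3 : 3 * L * (#V * (N : ℝ) ^ 2 / L ^ (A + 2)) = 3 / L * (#V * (N : ℝ) ^ 2 / L ^ A) := by
    rw [pow_add]
    field_simp
  rw [e2, e3, ← add_mul]
  have h8 : 6 / L + 3 / L ≤ 1 := by
    rw [← add_div, div_le_one hL0]
    linarith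
  calc (6 / L + 3 / L) * (#V * (N : ℝ) ^ 2 / L ^ A) ≤ 1 * (#V * (N : ℝ) ^ 2 / L ^ A) :=
        mul_le_mul_of_nonneg_right h8 (by positivity)
    _ = #V * (N : ℝ) ^ 2 / L ^ A := one_mul _

end Pool.Agent.XE
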